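import Mathlib
import Pool.Agent.L0h52.VD.Main

set_option autoImplicit false

/-!
# Vojta's conjecture for algebraic points: the error term on abelian covers of products of elliptic curves

`k` is any number field, `E_i : y_i² = f_i(x_i)` (`1 ≤ i ≤ n`, `f_i` a separable cubic over `k`) are
elliptic curves, and `X → Y = E_1 × … × E_n` is the abelian cover given by equations
`w_l ^ N_l = F_l(x_1, …, x_n)` (`N_l ≥ 2`, `F_l` any polynomial over `k` whose degree in every
variable is a multiple of `N_l`).  When the divisors `B_l = {F_l = 0}` on `Y` are smooth and meet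
transversally, `X` is a smooth projective variety of dimension `n` and its canonical divisor is the
pullback of `∑_l (1 - 1/N_l) B_l`, that is `K_X = ∑_l (1 - 1/N_l) ∑_i deg_{x_i}(F_l) x_i^* ∞`; it is
ample if every variable occurs in some `F_l`.  `A = ∑ x_i^* ∞` is ample.  The finite map
`(x_1, …, x_n) : X → (ℙ¹)^n` sends a proper Zariski-closed subset of `X` to a proper Zariski-closed
subset of `(ℙ¹)^n`, which lies (in the affine part) in the zero set of some polynomial `G ≠ 0` in
`n` variables.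

Vojta's conjecture says that for every `ε > 0` and `d` the inequality
`h_{K_X}(P) ≤ d_k(P) + ε h_A(P) + O(1)` holds for the points `P` of degree at most `d` outside a proper
Zariski-closed subset.  We prove that for some `d` the error term `ε h_A(P)` cannot be replaced by
`c log h_A(P)`, in particular not by `0`, as soon as `X → Y` is ramified.

The points lie over points `(P_1 + 2^{j_1} Q_1, …, P_n + 2^{j_n} Q_n)` of `Y`, with
`(x(P_1), …, x(P_n))` on the branch divisor.
-/

namespace Pool.Agent.Results.MP_9b9442_nt.ErrorTermAbelianCovers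

open NumberField Module Polynomial
open Pool.Agent.Y733.VR

/-- The height `h_A(P)` relative to `k` of the point `P = (x_i, y_i, w_l)` for `A = ∑ x_i^* ∞`. -/
noncomputable def height (k : Type) [Field k] {R : Type} [Field R] [NumberField R] [Algebra k R]
    {n : ℕ} (x : Fin n → R) : ℝ :=
  (∑ i, Height.logHeight₁ (x i)) / finrank k R

/-- The height `h_{K_X}(P)` relative to `k` of the point `P = (x_i, y_i, w_l)` for the canonical
divisor `K_X = ∑_l (1 - 1/N_l) ∑_i deg_{x_i}(F_l) x_i^* ∞`. -/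
noncomputable def canonicalHeight {k : Type} [Field k] {R : Type} [Field R] [NumberField R]
    [Algebra k R] {n m : ℕ} (F : Fin m → MvPolynomial (Fin n) k) (N : Fin m → ℕ) (x : Fin n → R) :
    ℝ :=
  (∑ l, (1 - 1 / (N l : ℝ)) * ∑ i, ((F l).degreeOf i : ℝ) * Height.logHeight₁ (x i)) / finrank k R

/-- The logarithmic discriminant `d_k(R)`. -/
noncomputable def logDisc (k : Type) [Field k] [NumberField k] (R : Type) [Field R]
    [NumberField R] [Algebra k R] : ℝ :=
  Real.log |(discr R : ℝ)| / finrank k R - Real.log |(discr k : ℝ)|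

/-- Vojta's inequality with the error term `ψ(h_A(P))`, that is
`h_{K_X}(P) ≤ d_k(P) + ψ(h_A(P))`, on `X : y_i² = f_i(x_i), w_l ^ N_l = F_l(x_1, …, x_n)`, for all affine
points `P` of degree at most `d` over `k` outside the zero set of `G(x_1, …, x_n)`.  (`R` is the residue
field `k(P)`.)  The conjecture has `ψ(t) = ε t + C`. -/
def VojtaInequality {k : Type} [Field k] [NumberField k] {n m : ℕ} (f : Fin n → k[X])
    (F : Fin m → MvPolynomial (Fin n) k) (N : Fin m → ℕ) (G : MvPolynomial (Fin n) k) (ψ : ℝ → ℝ)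
    (d : ℕ) : Prop :=
  ∀ (R : Type) [Field R] [NumberField R] [Algebra k R] (x y : Fin n → R) (w : Fin m → R),
    (∀ i, y i ^ 2 = aeval (x i) (f i)) → (∀ l, w l ^ N l = MvPolynomial.aeval x (F l)) →
    finrank k R ≤ d →
    IntermediateField.adjoin k (Set.range x ∪ Set.range y ∪ Set.range w) = ⊤ →
    MvPolynomial.aeval x G ≠ 0 →
    canonicalHeight F N x ≤ logDisc k R + ψ (height k x)

theorem part_one (k : Type) [Field k] [NumberField k] {n m : ℕ} (f : Fin n → k[X])
    (F : Fin m → MvPolynomial (Fin n) k) (N : Fin m → ℕ) (hd : ∀ i, (f i).natDegree = 3)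
    (hN : ∀ l, 2 ≤ N l) (hF : ∀ l, F l ≠ 0) (hdeg : ∀ l i, N l ∣ (F l).degreeOf i)
    (S : Finset (Fin m)) (hS : S.Nonempty) (ξ : Fin n → AlgebraicClosure k)
    (hξ : ∀ i, aeval (ξ i) (f i) ≠ 0) (hξS : ∀ l ∈ S, MvPolynomial.aeval ξ (F l) = 0) :
    ∃ d : ℕ, ∀ c C : ℝ, c < finrank ℚ k / 2 * ∑ l ∈ S, (1 - 1 / (N l : ℝ)) →
      ∀ G : MvPolynomial (Fin n) k, G ≠ 0 →
        ¬ VojtaInequality f F N G (fun t => c * Real.log t + C) d := by
  classical
  choose e he using hdeg
  obtain ⟨d, D₀, A, hA, hmain⟩ := Pool.Agent.L0h52.VD.main k f hd F N e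
    (fun l => by have := hN l; omega) hF (fun l i => (he l i).le) ξ hξ S hξS
  refine ⟨d, fun c C hc G hG hV => ?_⟩
  have l2 : 0 < Real.log 2 := Real.log_pos (by norm_num)
  set κ : ℝ := (finrank ℚ k : ℝ) with hκ
  have hκ0 : 0 < κ := deg_pos
  have hκ1 : 1 ≤ κ := by
    rw [hκ]
    exact_mod_cast (finrank_pos : 0 < finrank ℚ k)
  have hldk : 0 ≤ ld k := by
    unfold ld
    refine div_nonneg (Real.log_nonneg ?_) (Nat.cast_nonneg _)
    have : (1 : ℤ) ≤ |discr k| := Int.one_le_abs (discr_ne_zero k)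
    exact_mod_cast this
  have hN2 : ∀ l, (2 : ℝ) ≤ N l := fun l => by exact_mod_cast hN l
  set σ : ℝ := ∑ l ∈ S, (1 - 1 / (N l : ℝ)) with hσ
  have hσ0 : 0 < σ := by
    refine Finset.sum_pos (fun l _ => ?_) hS
    have := hN2 l
    rw [sub_pos, div_lt_one (by linarith)]
    linarith
  set c' : ℝ := max c 0 with hc'
  have hc'0 : 0 ≤ c' := le_max_right _ _
  have hc'1 : c' < κ / 2 * σ := max_lt hc (by positivity)
  set R : ℝ := ∑ l, ∑ i, (((N l : ℝ) - 1) * e l i) with hR
  have hRli : ∀ l i, 0 ≤ ((N l : ℝ) - 1) * e l i := fun l i => by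
    have := hN2 l
    exact mul_nonneg (by linarith) (Nat.cast_nonneg _)
  have hR0 : 0 ≤ R := Finset.sum_nonneg fun l _ => Finset.sum_nonneg fun i _ => hRli l i
  set D : ℕ := D₀ + G.totalDegree with hD
  set g : ℝ := (κ * σ - 2 * c') * Real.log 2 with hg
  have hg0 : 0 < g := mul_pos (by linarith) l2
  set B : ℝ := κ * A + |C| + c' * (|Real.log (κ * (n + 1) * (A + 1))| + D * (2 * Real.log 2)) with hB
  obtain ⟨J₁, hJ₁⟩ := exists_nat_gt (B / g)
  obtain ⟨J₂, hJ₂⟩ := exists_nat_gt ((A + (R + 1)) / (Real.log 2 * σ))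
  set J : ℕ := max J₁ J₂ with hJ
  obtain ⟨M, iF, iN, iA, x, y, w, h1, h1', h2, h3, h4, h5, h6⟩ := hmain G hG J
  have hfin := hV M x y w h1 h1' h2 h3 h4
  have hf0 : (0 : ℝ) < finrank k M := by
    have : FiniteDimensional k M := inferInstance
    exact_mod_cast finrank_pos
  have hdf : (finrank ℚ M : ℝ) = κ * finrank k M := finrank_tower k M
  have hlog : ∀ i, Height.logHeight₁ (x i) / finrank k M = κ * hh (x i) := by
    intro i
    rw [hh_mul_deg, hdf]
    field_simp
  have e1 : height k x = κ * ∑ i, hh (x i) := by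
    unfold height
    rw [Finset.sum_div, Finset.mul_sum]
    exact Finset.sum_congr rfl fun i _ => hlog i
  have e2 : canonicalHeight F N x = κ * ∑ l, ∑ i, (((N l : ℝ) - 1) * e l i) * hh (x i) := by
    unfold canonicalHeight
    rw [Finset.sum_div, Finset.mul_sum]
    refine Finset.sum_congr rfl fun l _ => ?_
    rw [Finset.mul_sum, Finset.mul_sum, Finset.sum_div]
    refine Finset.sum_congr rfl fun i _ => ?_
    have k1 := hN2 l
    have k2 : (N l : ℝ) ≠ 0 := by linarith
    have k3 : (1 - 1 / (N l : ℝ)) * (((F l).degreeOf i : ℝ) * Height.logHeight₁ (x i)) /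
        finrank k M = (1 - 1 / (N l : ℝ)) * ((F l).degreeOf i : ℝ) *
          (Height.logHeight₁ (x i) / finrank k M) := by ring
    rw [k3, hlog, he l i]
    push_cast
    field_simp
  have e3 : logDisc k M = κ * (ld M - ld k) := by
    unfold logDisc ld
    rw [hdf, ← hκ]
    field_simp
  have hldM : 0 ≤ ld M := by
    have := ld_mono k M
    linarith
  have hh0 : ∀ i, 0 ≤ hh (x i) := fun i => hh_nonneg _
  set T : ℝ := ∑ i, hh (x i) with hT
  have hT0 : 0 ≤ T := Finset.sum_nonneg fun i _ => hh0 i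
  set Tk : ℝ := ∑ l, ∑ i, (((N l : ℝ) - 1) * e l i) * hh (x i) with hTk
  have hSR : Tk ≤ R * T := by
    rw [hTk, hR, Finset.sum_mul]
    refine Finset.sum_le_sum fun l _ => ?_
    rw [Finset.sum_mul]
    refine Finset.sum_le_sum fun i _ => mul_le_mul_of_nonneg_left ?_ (hRli l i)
    exact Finset.single_le_sum (fun i _ => hh0 i) (Finset.mem_univ i)
  simp only at hfin
  rw [e1, e2, e3] at hfin
  have hJ1 : (J₁ : ℝ) ≤ J := by exact_mod_cast le_max_left _ _
  have hJ2 : (J₂ : ℝ) ≤ J := by exact_mod_cast le_max_right _ _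
  -- the height is at least one
  have hT1 : 1 ≤ T := by
    have k1 : A + (R + 1) < J * (Real.log 2 * σ) := by
      have := (div_lt_iff₀ (by positivity)).1 hJ₂
      have h7 := mul_le_mul_of_nonneg_right hJ2 (by positivity : (0 : ℝ) ≤ Real.log 2 * σ)
      linarith
    by_contra hlt
    push Not at hlt
    have k3 : R * T ≤ R := mul_le_of_le_one_right hR0 hlt.le
    have k4 : (J : ℝ) * Real.log 2 * σ = J * (Real.log 2 * σ) := by ring
    linarith
  have hκT : 1 ≤ κ * T := by nlinarith
  have hlogle : Real.log (κ * T) ≤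
      |Real.log (κ * (n + 1) * (A + 1))| + (J + D) * (2 * Real.log 2) := by
    have k1 : T ≤ n * (A * 4 ^ (J + D)) := by
      rw [hT]
      refine (Finset.sum_le_sum fun i _ => h5 i).trans (le_of_eq ?_)
      rw [Finset.sum_const, Finset.card_univ, Fintype.card_fin, nsmul_eq_mul]
    have k2 : κ * T ≤ κ * (n + 1) * (A + 1) * 4 ^ (J + D) := by
      have k5 : (0 : ℝ) ≤ 4 ^ (J + D) := by positivity
      have k6 : (n : ℝ) * A ≤ (n + 1) * (A + 1) := by nlinarith [Nat.cast_nonneg (α := ℝ) n]
      have k7 : (n : ℝ) * (A * 4 ^ (J + D)) ≤ (n + 1) * (A + 1) * 4 ^ (J + D) := by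
        have := mul_le_mul_of_nonneg_right k6 k5
        linarith
      have := mul_le_mul_of_nonneg_left (k1.trans k7) hκ0.le
      linarith
    have k3 := Real.log_le_log (by linarith) k2
    have hpos : 0 < κ * (n + 1) * (A + 1) := by positivity
    rw [Real.log_mul hpos.ne' (by positivity), Real.log_pow,
      show (4 : ℝ) = 2 ^ 2 by norm_num, Real.log_pow] at k3
    have := le_abs_self (Real.log (κ * (n + 1) * (A + 1)))
    push_cast at k3
    linarith
  have hlog0 : 0 ≤ Real.log (κ * T) := Real.log_nonneg hκT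
  have k1 : c * Real.log (κ * T) ≤ c' * Real.log (κ * T) :=
    mul_le_mul_of_nonneg_right (le_max_left _ _) hlog0
  have k2 := mul_le_mul_of_nonneg_left hlogle hc'0
  have k3 : κ * (ld M + J * Real.log 2 * σ) ≤ κ * (Tk + A) := mul_le_mul_of_nonneg_left h6 hκ0.le
  have k4 : (J : ℝ) * g ≤ B := by
    have := le_abs_self C
    have h7 : 0 ≤ κ * ld k := mul_nonneg hκ0.le hldk
    rw [hg, hB]
    linarith
  have k5 : B < J * g := by
    have := (div_lt_iff₀ hg0).1 hJ₁
    have h7 := mul_le_mul_of_nonneg_right hJ1 hg0.le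
    linarith
  linarith

/-- **The error term in Vojta's inequality on abelian covers of products of elliptic curves.**
(1) If some point `ξ` of the branch divisors `B_l`, `l ∈ S`, is not a ramification point of
`(x_1, …, x_n) : Y → (ℙ¹)^n`, then there is a `d` such that for all
`c < ([k : ℚ] / 2) ∑_{l ∈ S} (1 - 1/N_l)` and all `C` the inequality
`h_{K_X}(P) ≤ d_k(P) + c log h_A(P) + C` for the points `P` of degree at most `d` fails outside every
proper Zariski-closed subset.
(2) For `S = {l}` there is such a point unless `F_l` divides a power of `f_1(x_1) ⋯ f_n(x_n)`. -/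
theorem result (k : Type) [Field k] [NumberField k] (n m : ℕ) (f : Fin n → k[X])
    (F : Fin m → MvPolynomial (Fin n) k) (N : Fin m → ℕ) (_hf : ∀ i, (f i).Separable)
    (hd : ∀ i, (f i).natDegree = 3) (hN : ∀ l, 2 ≤ N l) (hF : ∀ l, F l ≠ 0)
    (hdeg : ∀ l i, N l ∣ (F l).degreeOf i) :
    (∀ S : Finset (Fin m), S.Nonempty → ∀ ξ : Fin n → AlgebraicClosure k,
      (∀ i, aeval (ξ i) (f i) ≠ 0) → (∀ l ∈ S, MvPolynomial.aeval ξ (F l) = 0) →
      ∃ d : ℕ, ∀ c C : ℝ, c < finrank ℚ k / 2 * ∑ l ∈ S, (1 - 1 / (N l : ℝ)) →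
        ∀ G : MvPolynomial (Fin n) k, G ≠ 0 →
          ¬ VojtaInequality f F N G (fun t => c * Real.log t + C) d) ∧
    (∀ l, (∀ r : ℕ, ¬ F l ∣ (∏ i, aeval (MvPolynomial.X i : MvPolynomial (Fin n) k) (f i)) ^ r) →
      ∃ d : ℕ, ∀ c C : ℝ, c < finrank ℚ k / 2 * (1 - 1 / (N l : ℝ)) →
        ∀ G : MvPolynomial (Fin n) k, G ≠ 0 →
          ¬ VojtaInequality f F N G (fun t => c * Real.log t + C) d) := by
  classical
  refine ⟨fun S hS ξ hξ hξS => part_one k f F N hd hN hF hdeg S hS ξ hξ hξS, fun l hl => ?_⟩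
  obtain ⟨ξ, h1, h2⟩ : ∃ ξ : Fin n → AlgebraicClosure k, (∀ i, aeval (ξ i) (f i) ≠ 0) ∧
      MvPolynomial.aeval ξ (F l) = 0 := by
    by_contra hcon
    push Not at hcon
    have hmem : (∏ i, aeval (MvPolynomial.X i : MvPolynomial (Fin n) k) (f i)) ∈
        MvPolynomial.vanishingIdeal k
          (MvPolynomial.zeroLocus (AlgebraicClosure k) (Ideal.span {F l})) := by
      rw [MvPolynomial.mem_vanishingIdeal_iff]
      intro ξ hξ
      rw [MvPolynomial.mem_zeroLocus_iff] at hξ
      have h0 := hξ (F l) (Ideal.subset_span rfl)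
      by_contra hne
      refine hcon ξ (fun i hi => hne ?_) h0
      rw [map_prod]
      refine Finset.prod_eq_zero (Finset.mem_univ i) ?_
      rw [← Polynomial.aeval_algHom_apply, MvPolynomial.aeval_X]
      exact hi
    rw [MvPolynomial.vanishingIdeal_zeroLocus_eq_radical] at hmem
    obtain ⟨r, hr⟩ := hmem
    exact hl r (Ideal.mem_span_singleton.1 hr)
  obtain ⟨d, h⟩ := part_one k f F N hd hN hF hdeg {l} (Finset.singleton_nonempty l) ξ h1
    (fun l' hl' => by rw [Finset.mem_singleton.1 hl']; exact h2)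
  rw [Finset.sum_singleton] at h
  exact ⟨d, h⟩

end Pool.Agent.Results.MP_9b9442_nt.ErrorTermAbelianCovers
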