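import Mathlib
import Pool.Agent.L0h52.VE.Main

set_option autoImplicit false

/-!
# Vojta's conjecture for algebraic points: the error term on products of hyperelliptic curves

`k` is any number field, `f_1, …, f_n` are any separable polynomials over `k` of degree at least
`5`, and `X = X_1 × … × X_n` is the product of the smooth projective models `X_i` of the
hyperelliptic curves `y² = f_i(x)`, of genus `g_i = ⌊(deg f_i - 1) / 2⌋ ≥ 2`.  A canonical divisor of
`X_i` is `(g_i - 1) x_i^* ∞`, so that `K_X = ∑ (g_i - 1) x_i^* ∞` is ample; `A = ∑ x_i^* ∞` is ample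
too.  The finite map `(x_1, …, x_n) : X → (ℙ¹)^n` sends a proper Zariski-closed subset of `X` to a
proper Zariski-closed subset of `(ℙ¹)^n`, which lies (in the affine part) in the zero set of some
polynomial `G ≠ 0` in `n` variables.

Vojta's conjecture says that for every `ε > 0` and `d` the inequality
`h_{K_X}(P) ≤ d_k(P) + ε h_A(P) + O(1)` holds for the points `P` of degree at most `d` outside a proper
Zariski-closed subset.  We prove that for some `d`, depending on `X`, the error term `ε h_A(P)`
cannot be replaced by `c log h_A(P)` for any `c < n [k : ℚ] / 4`, in particular not by `0`: outside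
every proper Zariski-closed subset, and for every constant `C`, there are points `P` of degree at most
`d` with `h_{K_X}(P) > d_k(P) + c log h_A(P) + C`.

The points lie over the points `P₀ + 2^j Q` of elliptic curves `v² = (x - e_1) … (x - e_4)`
ramified over four branch points of `X_i → ℙ¹`, where `x(P₀)` is a fifth branch point and `Q` is
close to the origin at the places over `2`.
-/

namespace Pool.Agent.Results.MP_9b9442_nt.ErrorTermHyperelliptic

open NumberField Module Polynomial
open Pool.Agent.Y733.VR

/-- The height `h_A(P)` relative to `k` of the point `P = (x_i, y_i)` for `A = ∑ x_i^* ∞`. -/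
noncomputable def height (k : Type) [Field k] {F : Type} [Field F] [NumberField F] [Algebra k F]
    {n : ℕ} (x : Fin n → F) : ℝ :=
  (∑ i, Height.logHeight₁ (x i)) / finrank k F

/-- The genus of `y² = f(x)`. -/
noncomputable def genus {k : Type} [Field k] (f : k[X]) : ℕ := (f.natDegree - 1) / 2

/-- The height `h_{K_X}(P)` relative to `k` of the point `P = (x_i, y_i)` for the canonical divisor
`K_X = ∑ (g_i - 1) x_i^* ∞`. -/
noncomputable def canonicalHeight {k : Type} [Field k] {F : Type} [Field F] [NumberField F]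
    [Algebra k F] {n : ℕ} (f : Fin n → k[X]) (x : Fin n → F) : ℝ :=
  (∑ i, ((genus (f i) : ℝ) - 1) * Height.logHeight₁ (x i)) / finrank k F

/-- The logarithmic discriminant `d_k(F)`. -/
noncomputable def logDisc (k : Type) [Field k] [NumberField k] (F : Type) [Field F]
    [NumberField F] [Algebra k F] : ℝ :=
  Real.log |(discr F : ℝ)| / finrank k F - Real.log |(discr k : ℝ)|

/-- Vojta's inequality with the error term `ψ(h_A(P))`, that is
`h_{K_X}(P) ≤ d_k(P) + ψ(h_A(P))`, on the product `X` of the curves `y² = f_i(x)`, for all affine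
points `P` of degree at most `d` over `k` outside the zero set of `G(x_1, …, x_n)`.  (`F` is the residue
field `k(P)`.)  The conjecture has `ψ(t) = ε t + C`. -/
def VojtaInequality {k : Type} [Field k] [NumberField k] {n : ℕ} (f : Fin n → k[X])
    (G : MvPolynomial (Fin n) k) (ψ : ℝ → ℝ) (d : ℕ) : Prop :=
  ∀ (F : Type) [Field F] [NumberField F] [Algebra k F] (x y : Fin n → F),
    (∀ i, y i ^ 2 = aeval (x i) (f i)) → finrank k F ≤ d →
    IntermediateField.adjoin k (Set.range x ∪ Set.range y) = ⊤ →
    MvPolynomial.aeval x G ≠ 0 →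
    canonicalHeight f x ≤ logDisc k F + ψ (height k x)

/-- **The error term in Vojta's inequality is at least `(n [k : ℚ] / 4) log h_A`.** For every product
`X` of `n ≥ 1` hyperelliptic curves of genus at least `2` over any number field `k` there is a `d` such
that for all `c < n [k : ℚ] / 4` and all `C` the inequality
`h_{K_X}(P) ≤ d_k(P) + c log h_A(P) + C` for the points `P` of degree at most `d` fails outside
every proper Zariski-closed subset. -/
theorem result (k : Type) [Field k] [NumberField k] (n : ℕ) (hn : n ≠ 0) (f : Fin n → k[X])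
    (hf : ∀ i, (f i).Separable) (hd : ∀ i, 5 ≤ (f i).natDegree) :
    ∃ d : ℕ, ∀ c C : ℝ, c < n * finrank ℚ k / 4 → ∀ G : MvPolynomial (Fin n) k, G ≠ 0 →
      ¬ VojtaInequality f G (fun t => c * Real.log t + C) d := by
  obtain ⟨d, A, hA, hmain⟩ := Pool.Agent.L0h52.VE.main k f fun i => ⟨hf i, hd i⟩
  refine ⟨d, fun c C hc G hG hV => ?_⟩
  have l2 : 0 < Real.log 2 := Real.log_pos (by norm_num)
  set κ : ℝ := (finrank ℚ k : ℝ) with hκ
  have hκ0 : 0 < κ := deg_pos
  have hκ1 : 1 ≤ κ := by
    rw [hκ]
    exact_mod_cast (finrank_pos : 0 < finrank ℚ k)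
  have hn1 : (1 : ℝ) ≤ n := by exact_mod_cast Nat.one_le_iff_ne_zero.2 hn
  have hldk : 0 ≤ ld k := by
    unfold ld
    refine div_nonneg (Real.log_nonneg ?_) (Nat.cast_nonneg _)
    have : (1 : ℤ) ≤ |discr k| := Int.one_le_abs (discr_ne_zero k)
    exact_mod_cast this
  set c' : ℝ := max c 0 with hc'
  have hc'0 : 0 ≤ c' := le_max_right _ _
  have hc'1 : c' < n * κ / 4 := max_lt hc (by positivity)
  set R : ℝ := ∑ i, ((((f i).natDegree - 3) / 2 : ℕ) : ℝ) with hR
  have hR0 : 0 ≤ R := Finset.sum_nonneg fun i _ => Nat.cast_nonneg _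
  set D : ℕ := G.totalDegree with hD
  set g : ℝ := (n * κ / 2 - 2 * c') * Real.log 2 with hg
  have hg0 : 0 < g := mul_pos (by linarith) l2
  set B : ℝ := κ * A + |C| + c' * (|Real.log (κ * n * (A + 1))| + D * (2 * Real.log 2)) with hB
  obtain ⟨J₁, hJ₁⟩ := exists_nat_gt (B / g)
  obtain ⟨J₂, hJ₂⟩ := exists_nat_gt ((A + (R + 1)) / (Real.log 2 / 2))
  set J : ℕ := max J₁ J₂ with hJ
  obtain ⟨F, iF, iN, iA, x, y, h1, h2, h3, h4, h5, h6⟩ := hmain G hG J
  have hfin := hV F x y h1 h2 h3 h4
  have hf0 : (0 : ℝ) < finrank k F := by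
    have : FiniteDimensional k F := inferInstance
    exact_mod_cast finrank_pos
  have hdf : (finrank ℚ F : ℝ) = κ * finrank k F := finrank_tower k F
  have hlog : ∀ i, Height.logHeight₁ (x i) / finrank k F = κ * hh (x i) := by
    intro i
    rw [hh_mul_deg, hdf]
    field_simp
  have e1 : height k x = κ * ∑ i, hh (x i) := by
    unfold height
    rw [Finset.sum_div, Finset.mul_sum]
    exact Finset.sum_congr rfl fun i _ => hlog i
  have e2 : canonicalHeight f x = κ * ∑ i, ((((f i).natDegree - 3) / 2 : ℕ) : ℝ) * hh (x i) := by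
    unfold canonicalHeight
    rw [Finset.sum_div, Finset.mul_sum]
    refine Finset.sum_congr rfl fun i _ => ?_
    have hg : ((genus (f i) : ℝ) - 1) = ((((f i).natDegree - 3) / 2 : ℕ) : ℝ) := by
      have h7 : genus (f i) = ((f i).natDegree - 3) / 2 + 1 := by
        have := hd i
        unfold genus
        omega
      rw [h7]
      push_cast
      ring
    rw [hg, mul_div_assoc, hlog]
    ring
  have e3 : logDisc k F = κ * (ld F - ld k) := by
    unfold logDisc ld
    rw [hdf, ← hκ]
    field_simp
  have hldF : 0 ≤ ld F := by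
    have := ld_mono k F
    linarith
  have hh0 : ∀ i, 0 ≤ hh (x i) := fun i => hh_nonneg _
  set T : ℝ := ∑ i, hh (x i) with hT
  have hT0 : 0 ≤ T := Finset.sum_nonneg fun i _ => hh0 i
  set S : ℝ := ∑ i, ((((f i).natDegree - 3) / 2 : ℕ) : ℝ) * hh (x i) with hS
  have hSR : S ≤ R * T := by
    rw [hS, hR, Finset.sum_mul]
    refine Finset.sum_le_sum fun i _ => mul_le_mul_of_nonneg_left ?_ (Nat.cast_nonneg _)
    exact Finset.single_le_sum (fun i _ => hh0 i) (Finset.mem_univ i)
  simp only at hfin
  rw [e1, e2, e3] at hfin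
  have hJ1 : (J₁ : ℝ) ≤ J := by exact_mod_cast le_max_left _ _
  have hJ2 : (J₂ : ℝ) ≤ J := by exact_mod_cast le_max_right _ _
  -- the height is at least one
  have hT1 : 1 ≤ T := by
    have k1 : A + (R + 1) < J * (Real.log 2 / 2) := by
      have := (div_lt_iff₀ (by positivity)).1 hJ₂
      have h7 := mul_le_mul_of_nonneg_right hJ2 (by positivity : (0 : ℝ) ≤ Real.log 2 / 2)
      linarith
    have k2 : (J : ℝ) * (Real.log 2 / 2) ≤ n * J * (Real.log 2 / 2) := by
      have : (J : ℝ) ≤ n * J := le_mul_of_one_le_left (Nat.cast_nonneg _) hn1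
      exact mul_le_mul_of_nonneg_right this (by positivity)
    by_contra hlt
    push Not at hlt
    have k3 : R * T ≤ R := mul_le_of_le_one_right hR0 hlt.le
    linarith
  have hκT : 1 ≤ κ * T := by nlinarith
  have hlogle : Real.log (κ * T) ≤ |Real.log (κ * n * (A + 1))| + (J + D) * (2 * Real.log 2) := by
    have k1 : T ≤ n * (A * 4 ^ (J + D)) := by
      rw [hT]
      refine (Finset.sum_le_sum fun i _ => h5 i).trans (le_of_eq ?_)
      rw [Finset.sum_const, Finset.card_univ, Fintype.card_fin, nsmul_eq_mul]
    have k2 : κ * T ≤ κ * n * (A + 1) * 4 ^ (J + D) := by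
      have : (0 : ℝ) ≤ κ * (n * 4 ^ (J + D)) := by positivity
      nlinarith [mul_le_mul_of_nonneg_left k1 hκ0.le]
    have k3 := Real.log_le_log (by linarith) k2
    have hpos : 0 < κ * n * (A + 1) := by
      have : (0 : ℝ) < n := by linarith
      positivity
    rw [Real.log_mul hpos.ne' (by positivity), Real.log_pow,
      show (4 : ℝ) = 2 ^ 2 by norm_num, Real.log_pow] at k3
    have := le_abs_self (Real.log (κ * n * (A + 1)))
    push_cast at k3
    linarith
  have hlog0 : 0 ≤ Real.log (κ * T) := Real.log_nonneg hκT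
  have k1 : c * Real.log (κ * T) ≤ c' * Real.log (κ * T) :=
    mul_le_mul_of_nonneg_right (le_max_left _ _) hlog0
  have k2 := mul_le_mul_of_nonneg_left hlogle hc'0
  have k3 : κ * (ld F + n * J * (Real.log 2 / 2)) ≤ κ * (S + A) := mul_le_mul_of_nonneg_left h6 hκ0.le
  have k4 : (J : ℝ) * g ≤ B := by
    have := le_abs_self C
    have h7 : 0 ≤ κ * ld k := mul_nonneg hκ0.le hldk
    rw [hg, hB]
    linarith
  have k5 : B < J * g := by
    have := (div_lt_iff₀ hg0).1 hJ₁
    have h7 := mul_le_mul_of_nonneg_right hJ1 hg0.le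
    linarith
  linarith

end Pool.Agent.Results.MP_9b9442_nt.ErrorTermHyperelliptic
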