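import Mathlib
import Pool.Agent.L0h52.VZ.Main

set_option autoImplicit false

/-!
# Vojta's conjecture for algebraic points: the exceptional set depends on `ε`

`k` is any number field, `N = 3 M ≥ 6` and `X` is the square of the Fermat curve
`a ^ N + b ^ N = 1` of degree `N`; `A` is the sum of the pullbacks of a line section from the two
factors, and `K_X = (N - 3) A`. The finite map `(a i, b i) ↦ (a i ^ N)` sends a proper
Zariski-closed subset of `X` to a proper Zariski-closed subset of `ℙ¹ × ℙ¹`, which lies in the zero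
set of some polynomial `G ≠ 0` in two variables (in the affine part).

The points used lie over the graphs of the iterates of the rational function
`t (2 - t)³ / (2 t - 1)³`, induced by multiplication by `-2` on the elliptic curve
`x³ + y³ = 7 z³`, where `t = x³ / (7 z³)`.
-/

namespace Pool.Agent.Results.MP_9b9442_nt.ExceptionalSetDependsOnEps

open NumberField Module

/-- The height `h_A(P)` of the point `P = (a i, b i)` for `A = ⊞ O(1)`, relative to `k`: the sum of
the logarithmic heights of the two points `(a i : b i : 1)` of the projective plane. -/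
noncomputable def height (k : Type) [Field k] {F : Type} [Field F] [NumberField F] [Algebra k F]
    (a b : Fin 2 → F) : ℝ :=
  (∑ i, Height.logHeight ![a i, b i, 1]) / finrank k F

/-- The logarithmic discriminant `d_k(F)`. -/
noncomputable def logDisc (k : Type) [Field k] [NumberField k] (F : Type) [Field F]
    [NumberField F] [Algebra k F] : ℝ :=
  Real.log |(discr F : ℝ)| / finrank k F - Real.log |(discr k : ℝ)|

/-- Vojta's inequality `h_K(P) ≤ d_k(P) + ε h_A(P) + C` on the square of the Fermat curve of degree
`N`, for all affine points `P` of degree at most `d` over `k` outside the zero set of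
`G (a 0 ^ N, a 1 ^ N)`. -/
def VojtaInequality {k : Type} [Field k] [NumberField k] (N : ℕ)
    (G : MvPolynomial (Fin 2) k) (ε C : ℝ) (d : ℕ) : Prop :=
  ∀ (F : Type) [Field F] [NumberField F] [Algebra k F] (a b : Fin 2 → F),
    (∀ i, a i ^ N + b i ^ N = 1) → finrank k F ≤ d →
    IntermediateField.adjoin k (Set.range a ∪ Set.range b) = ⊤ →
    MvPolynomial.aeval (fun i => a i ^ N) G ≠ 0 →
    (N - 3) * height k a b ≤ logDisc k F + ε * height k a b + C

/-- **The exceptional set must depend on `ε`, already for a fixed bound for the degree of the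
points, and its degree grows at least like `1 / ε`.** Let `k` be a number field, `N = 3 M` with
`M ≥ 2`, and `d ≥ 3 M ^ 7`.

(1) If `ε > 0` and Vojta's inequality holds, with some constant `C`, for all affine points of degree
at most `d` over `k` of the square of the Fermat curve of degree `N` outside the zero set of
`G (a 0 ^ N, a 1 ^ N)`, `G ≠ 0`, then `G` has degree at least `((N - 3) / ε - 2) / 3` in each of
its two variables.

(2) For every `G ≠ 0` there is `ε₀ > 0` such that for all positive `ε < ε₀` and all `C` the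
inequality fails for some such point outside the zero set of `G (a 0 ^ N, a 1 ^ N)`. -/
theorem result (k : Type) [Field k] [NumberField k] (M : ℕ) (hM : 2 ≤ M) (d : ℕ)
    (hd : 3 * M ^ 7 ≤ d) :
    (∀ (G : MvPolynomial (Fin 2) k) (ε C : ℝ), G ≠ 0 → 0 < ε → VojtaInequality (3 * M) G ε C d →
      ∀ m : Fin 2, ((3 * M : ℕ) - 3 : ℝ) ≤ ε * (3 * G.degreeOf m + 2)) ∧
    ∀ G : MvPolynomial (Fin 2) k, G ≠ 0 → ∃ ε₀ : ℝ, 0 < ε₀ ∧ ∀ ε : ℝ, 0 < ε → ε < ε₀ →
      ∀ C : ℝ, ¬ VojtaInequality (3 * M) G ε C d := by
  have key : ∀ (G : MvPolynomial (Fin 2) k) (ε C : ℝ), G ≠ 0 → 0 < ε →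
      VojtaInequality (3 * M) G ε C d →
      ∀ m : Fin 2, ((3 * M : ℕ) - 3 : ℝ) ≤ ε * (3 * G.degreeOf m + 2) := by
    intro G ε C hG hε hV m
    refine Pool.Agent.L0h52.VZ.main k M (by omega) G hG ε C hε d hd ?_ m
    intro F _ _ _ a b h1 h2 h3 h4
    rw [one_mul]
    exact hV F a b h1 h2 h3 h4
  refine ⟨key, fun G hG => ?_⟩
  have hM' : (2 : ℝ) ≤ M := by exact_mod_cast hM
  have h1 : (0 : ℝ) < 3 * G.degreeOf 0 + 2 := by positivity
  have h2 : (0 : ℝ) < (3 * M : ℕ) - 3 := by
    push_cast
    linarith
  refine ⟨((3 * M : ℕ) - 3) / (3 * G.degreeOf 0 + 2), div_pos h2 h1, fun ε hε hε' C hV => ?_⟩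
  rw [lt_div_iff₀ h1] at hε'
  exact absurd (key G ε C hG hε hV 0) (not_le.2 hε')

end Pool.Agent.Results.MP_9b9442_nt.ExceptionalSetDependsOnEps
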