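import Mathlib
import Pool.Agent.L0h52.VP.Final

set_option autoImplicit false

/-!
# Vojta's conjecture for algebraic points: the exceptional set depends on `ε` on every product of
hyperelliptic curves with a repeated factor

`k` is any number field, `f_1, …, f_n` are any separable polynomials over `k` of degree at least
`5`, and `X = X_1 × … × X_n` is the product of the smooth projective models `X_i` of the
hyperelliptic curves `y² = f_i(x)`, of genus `g_i = ⌊(deg f_i - 1) / 2⌋ ≥ 2`.  A canonical divisor of
`X_i` is `(g_i - 1) x_i^* ∞`, so that `K_X = ∑ (g_i - 1) x_i^* ∞` is ample; `A = ∑ x_i^* ∞` is ample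
too.  The finite map `(x_1, …, x_n) : X → (ℙ¹)^n` sends a proper Zariski-closed subset of `X` to a
proper Zariski-closed subset of `(ℙ¹)^n`, which lies (in the affine part) in the zero set of some
polynomial `G ≠ 0` in `n` variables.

Vojta's conjecture says that for every `ε > 0` and `d` the inequality
`h_{K_X}(P) ≤ d_k(P) + ε h_A(P) + O(1)` holds for the points `P` of degree at most `d` outside a proper
Zariski-closed subset `Z`.  We prove that `Z` cannot be chosen independently of `ε`, not even for a
fixed `d`, as soon as one of the curves `X_i` occurs twice, for example on `C × C` for every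
hyperelliptic curve `C` of genus at least `2`; the degree of `Z` in `x_i` is at least
`1 / (800 ε) - 1`.

The points of `C × C` lie over the pairs `(x(P), x(2^j P))`, where `E` is a double cover of the
projective line ramified in four branch points of `C` and the origin of `E` lies over a fifth one:
the primes at which `P` reduces to the origin ramify in both coordinates.
-/

namespace Pool.Agent.Results.MP_9b9442_nt.ExceptionalSetHyperelliptic

open NumberField Module Polynomial
open Pool.Agent.Y733.VR

/-- The height `h_A(P)` relative to `k` of the point `P = (x_i, y_i)` for `A = ∑ x_i^* ∞`. -/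
noncomputable def height (k : Type) [Field k] {F : Type} [Field F] [NumberField F] [Algebra k F]
    {n : ℕ} (x : Fin n → F) : ℝ :=
  (∑ i, Height.logHeight₁ (x i)) / finrank k F

/-- The genus of `y² = f(x)`. -/
noncomputable def genus {k : Type} [Field k] (f : k[X]) : ℕ := (f.natDegree - 1) / 2

/-- The height `h_{K_X}(P)` relative to `k` of the point `P = (x_i, y_i)` for the canonical divisor
`K_X = ∑ (g_i - 1) x_i^* ∞`. -/
noncomputable def canonicalHeight {k : Type} [Field k] {F : Type} [Field F] [NumberField F]
    [Algebra k F] {n : ℕ} (f : Fin n → k[X]) (x : Fin n → F) : ℝ :=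
  (∑ i, ((genus (f i) : ℝ) - 1) * Height.logHeight₁ (x i)) / finrank k F

/-- The logarithmic discriminant `d_k(F)`. -/
noncomputable def logDisc (k : Type) [Field k] [NumberField k] (F : Type) [Field F]
    [NumberField F] [Algebra k F] : ℝ :=
  Real.log |(discr F : ℝ)| / finrank k F - Real.log |(discr k : ℝ)|

/-- Vojta's inequality `h_{K_X}(P) ≤ d_k(P) + ε h_A(P) + C` on the product `X` of the curves
`y² = f_i(x)`, for all affine points `P` of degree at most `d` over `k` outside the zero set of
`G(x_1, …, x_n)`.  (`F` is the residue field `k(P)`.) -/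
def VojtaInequality {k : Type} [Field k] [NumberField k] {n : ℕ} (f : Fin n → k[X])
    (G : MvPolynomial (Fin n) k) (ε C : ℝ) (d : ℕ) : Prop :=
  ∀ (F : Type) [Field F] [NumberField F] [Algebra k F] (x y : Fin n → F),
    (∀ i, y i ^ 2 = aeval (x i) (f i)) → finrank k F ≤ d →
    IntermediateField.adjoin k (Set.range x ∪ Set.range y) = ⊤ →
    MvPolynomial.aeval x G ≠ 0 →
    canonicalHeight f x ≤ logDisc k F + ε * height k x + C

/-- **The exceptional set must depend on `ε`, and its degree grows at least like `1 / ε`.** For every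
product `X` of hyperelliptic curves `y² = f_i(x)` of genus at least `2` over any number field `k` there
is a `d` with the following properties for every `i` such that the `i`-th curve occurs at least
twice.

(1) If `ε > 0` and Vojta's inequality holds, with some constant `C`, for the points of degree at most
`d` over `k` outside the zero set of `G(x_1, …, x_n)`, `G ≠ 0`, then `G` has degree at least
`1 / (800 ε) - 1` in `x_i`.

(2) For every `G ≠ 0` there is `ε₀ > 0` such that for all positive `ε < ε₀` and all `C` the
inequality fails for some point of degree at most `d` outside the zero set of `G(x_1, …, x_n)`. -/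
theorem result (k : Type) [Field k] [NumberField k] (n : ℕ) (f : Fin n → k[X])
    (hf : ∀ i, (f i).Separable) (hd : ∀ i, 5 ≤ (f i).natDegree) :
    ∃ d : ℕ, ∀ i j : Fin n, i ≠ j → f i = f j →
      (∀ (G : MvPolynomial (Fin n) k) (ε C : ℝ), G ≠ 0 → 0 < ε → VojtaInequality f G ε C d →
        1 ≤ 800 * ε * (G.degreeOf i + 1)) ∧
      ∀ G : MvPolynomial (Fin n) k, G ≠ 0 → ∃ ε₀ : ℝ, 0 < ε₀ ∧ ∀ ε : ℝ, 0 < ε → ε < ε₀ →
        ∀ C : ℝ, ¬ VojtaInequality f G ε C d := by
  classical
  have hmain : ∀ p : Fin n × Fin n, ∃ d : ℕ, p.1 ≠ p.2 → f p.1 = f p.2 →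
      ∀ (G : MvPolynomial (Fin n) k) (ε C : ℝ), G ≠ 0 → 0 < ε → VojtaInequality f G ε C d →
        1 ≤ 800 * ε * (G.degreeOf p.1 + 1) := by
    intro p
    by_cases h01 : p.1 ≠ p.2
    swap
    · exact ⟨0, fun h => absurd h h01⟩
    by_cases hrep : f p.1 = f p.2
    swap
    · exact ⟨0, fun _ h => absurd h hrep⟩
    obtain ⟨d, hd'⟩ := Pool.Agent.L0h52.VP.main k f (fun i => ⟨hf i, hd i⟩) h01 hrep
    refine ⟨d, fun _ _ G ε C hG hε hV => hd' G ε (C / finrank ℚ k) hG hε ?_⟩
    intro F _ _ _ x y h1 h2 h3 h4
    have hfin := hV F x y h1 h2 h3 h4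
    set κ : ℝ := (finrank ℚ k : ℝ) with hκ
    have hκ0 : 0 < κ := deg_pos
    have hf0 : (0 : ℝ) < finrank k F := by
      have : FiniteDimensional k F := inferInstance
      exact_mod_cast finrank_pos
    have hdf : (finrank ℚ F : ℝ) = κ * finrank k F := finrank_tower k F
    have hlog : ∀ i, Height.logHeight₁ (x i) / finrank k F = κ * hh (x i) := by
      intro i
      rw [hh_mul_deg, hdf]
      field_simp
    have e1 : height k x = κ * ∑ i, hh (x i) := by
      unfold height
      rw [Finset.sum_div, Finset.mul_sum]
      exact Finset.sum_congr rfl fun i _ => hlog i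
    have e2 : canonicalHeight f x = κ * ∑ i, ((((f i).natDegree - 3) / 2 : ℕ) : ℝ) * hh (x i) := by
      unfold canonicalHeight
      rw [Finset.sum_div, Finset.mul_sum]
      refine Finset.sum_congr rfl fun i _ => ?_
      have hg : ((genus (f i) : ℝ) - 1) = ((((f i).natDegree - 3) / 2 : ℕ) : ℝ) := by
        have h7 : genus (f i) = ((f i).natDegree - 3) / 2 + 1 := by
          have := hd i
          unfold genus
          omega
        rw [h7]
        push_cast
        ring
      rw [hg, mul_div_assoc, hlog]
      ring
    have e3 : logDisc k F = κ * (ld F - ld k) := by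
      unfold logDisc ld
      rw [hdf, ← hκ]
      field_simp
    rw [e1, e2, e3] at hfin
    refine le_of_mul_le_mul_left ?_ hκ0
    have e4 : κ * (ld F - ld k + (ε * ∑ i, hh (x i) + C / κ)) =
        κ * (ld F - ld k) + ε * (κ * ∑ i, hh (x i)) + C := by
      field_simp
      ring
    rw [e4]
    exact hfin
  choose D hD using hmain
  have hmono : ∀ (G : MvPolynomial (Fin n) k) (ε C : ℝ) (d d' : ℕ), d ≤ d' →
      VojtaInequality f G ε C d' → VojtaInequality f G ε C d := by
    intro G ε C d d' h hV F _ _ _ x y h1 h2 h3 h4
    exact hV F x y h1 (h2.trans h) h3 h4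
  refine ⟨∑ p, D p, fun i j hij hfij => ?_⟩
  have hle : D (i, j) ≤ ∑ p, D p := Finset.single_le_sum (f := D) (fun _ _ => Nat.zero_le _)
    (Finset.mem_univ (i, j))
  have key : ∀ (G : MvPolynomial (Fin n) k) (ε C : ℝ), G ≠ 0 → 0 < ε →
      VojtaInequality f G ε C (∑ p, D p) → 1 ≤ 800 * ε * (G.degreeOf i + 1) :=
    fun G ε C hG hε hV => hD (i, j) hij hfij G ε C hG hε (hmono G ε C _ _ hle hV)
  refine ⟨key, fun G hG => ?_⟩
  have h1 : (0 : ℝ) < 800 * (G.degreeOf i + 1) := by positivity
  refine ⟨1 / (800 * (G.degreeOf i + 1)), div_pos one_pos h1, fun ε hε hε' C hV => ?_⟩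
  rw [lt_div_iff₀ h1] at hε'
  have := key G ε C hG hε hV
  linarith

end Pool.Agent.Results.MP_9b9442_nt.ExceptionalSetHyperelliptic
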